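import Pool.Agent.N794.CG.Flex
import Pool.Agent.N794.CG.Quad

/-!
# The `H`-moments of the class groups of quadratic fields over random integers whose blocks of digits can be exchanged

From Mathlib: `𝓞 K`, `ClassGroup`, `NumberField.discr`: the ring of integers, the class group and the discriminant;
`CommGroup.primaryComponent G p`: the elements of `p`-power order.

Method: if blocks of digits can be exchanged then the exponential sums are exponentially small in the number of the
places at which the frequency is not close to a rational number with a small denominator (helper625, `Pool.Agent.N625.PT`);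
after a mixture with the uniform distribution this gives the decay which is needed to show that for almost all members
`v` many small primes split in `ℚ(√(j v))`, with a high power saving in the probability of the exceptions at each
scale (starting library, `Pool.Agent.H491R4.HM` and `Pool.Agent.R459.Tor`, where digit families are treated); then the
argument of Ellenberg and Venkatesh, and a count of surjections (starting library, `Pool.Agent.R345.HM`).
-/

set_option autoImplicit false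

namespace Pool.Agent.Results.MP_0f260b_nt.ExchangeableMoments

open Finset NumberField Filter

/-- The probability, for the distribution `μ` on the words of `k` digits (the integers `v < b ^ k`), that the word begins with
the `i` digits of `u < b ^ i`. -/
noncomputable def begins (b k : ℕ) (μ : ℕ → ℝ) (i u : ℕ) : ℝ := ∑ w ∈ range (b ^ (k - i)), μ (u * b ^ (k - i) + w)

/-- `p` is a probability on the words of `k` digits in base `b`, read as integers `v < b ^ k`. There is another probability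
`μ` with `p ≤ k ^ T μ` such that after every beginning `u` two different blocks `a`, `a'` of `L` digits can be exchanged:
`p (u a w) = r p (u a' w)` for all endings `w`, with a factor `r` between `η` and `1 / η` which does not depend on `w`; and
given the beginning `u`, each of the two blocks comes next with a probability of at least `η` in the distribution `μ`.
(For `T = 0` one has `μ = p`. For the uniform distribution on a set of words `r` is `1`.) -/
structure Exchangeable (b L : ℕ) (η : ℝ) (T k : ℕ) (p : ℕ → ℝ) : Prop where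
  nonneg : ∀ v, 0 ≤ p v
  sum : ∑ v ∈ range (b ^ k), p v = 1
  dominated : ∃ μ : ℕ → ℝ, (∀ v, 0 ≤ μ v) ∧ ∑ v ∈ range (b ^ k), μ v = 1 ∧ (∀ v < b ^ k, p v ≤ (k : ℝ) ^ T * μ v) ∧
    ∀ i u : ℕ, i + L ≤ k → u < b ^ i → ∃ (a a' : ℕ) (r : ℝ), a < a' ∧ a' < b ^ L ∧ η ≤ r ∧ η * r ≤ 1 ∧
      (∀ w < b ^ (k - (i + L)), p ((b ^ L * u + a) * b ^ (k - (i + L)) + w) = r * p ((b ^ L * u + a') * b ^ (k - (i + L)) + w)) ∧
      η * begins b k μ i u ≤ begins b k μ (i + L) (b ^ L * u + a) ∧
      η * begins b k μ i u ≤ begins b k μ (i + L) (b ^ L * u + a')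

lemma begins_sum (b k : ℕ) (μ : ℕ → ℝ) (i u : ℕ) (hi : i < k) :
    ∑ a ∈ range b, begins b k μ (i + 1) (b * u + a) = begins b k μ i u := by
  unfold begins
  obtain ⟨n, hn⟩ : ∃ n, k - i = n + 1 := ⟨k - i - 1, by omega⟩
  have h1 : k - (i + 1) = n := by omega
  rw [h1, hn, pow_succ, mul_comm (b ^ n) b, Pool.Agent.N625.PT.sum_blocks b (b ^ n)]
  apply sum_congr rfl
  intro a _
  apply sum_congr rfl
  intro w _
  congr 1
  ring

lemma flex_of {b L T k : ℕ} {η : ℝ} {p : ℕ → ℝ} (hp : Exchangeable b L η T k p) : Pool.Agent.N625.PT.Flex b L η T k p := by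
  obtain ⟨h0, h1, μ, m0, m1, m2, m3⟩ := hp
  have hT : (0 : ℝ) ≤ (k : ℝ) ^ T := by positivity
  have hb0 : ∀ i u, 0 ≤ begins b k μ i u := fun i u => sum_nonneg fun w _ => m0 _
  refine ⟨h0, h1, fun i u => (k : ℝ) ^ T * begins b k μ i u, fun i u => mul_nonneg hT (hb0 i u), ?_, ?_, ?_, ?_⟩
  · intro v hv
    refine (m2 v hv).trans (le_of_eq ?_)
    unfold begins
    simp
  · intro i hi u _
    simp only
    rw [← mul_sum, begins_sum b k μ i u hi]
  · simp only
    have : begins b k μ 0 0 = 1 := by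
      unfold begins
      simpa using m1
    rw [this, mul_one]
  · intro i u hi hu
    obtain ⟨a, a', r, q1, q2, q3, q4, q5, q6, q7⟩ := m3 i u hi hu
    refine ⟨a, a', r, q1, q2, q3, q4, q5, ?_, ?_⟩
    · simp only
      calc η * ((k : ℝ) ^ T * begins b k μ i u) = (k : ℝ) ^ T * (η * begins b k μ i u) := by ring
        _ ≤ _ := mul_le_mul_of_nonneg_left q6 hT
    · simp only
      calc η * ((k : ℝ) ^ T * begins b k μ i u) = (k : ℝ) ^ T * (η * begins b k μ i u) := by ring
        _ ≤ _ := mul_le_mul_of_nonneg_left q7 hT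

/-- `#Sur(Cl(K)[p^∞], H)` for the group `H`, the product of the cyclic groups of orders `p ^ e i`. -/
noncomputable def numSur (K : Type) [Field K] [NumberField K] (p : ℕ) {r : ℕ} (e : Fin r → ℕ) : ℕ :=
  Nat.card {φ : CommGroup.primaryComponent (ClassGroup (𝓞 K)) p →* (∀ i : Fin r, Multiplicative (ZMod (p ^ e i))) //
    Function.Surjective φ}

open Classical in
/-- Let `b ≥ 2`, `L ≥ 1`, `0 < η ≤ 1`, `T` and `r ≥ 1` be fixed. There is `δ > 0` such that for `κ ≠ 0` and `U`, `V` there
are `B`, `k₀` such that the following holds for all `k ≥ k₀`, all probabilities `p` on the words of `k` digits in which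
blocks of `L` digits can be exchanged (`Exchangeable b L η T k p`), all `c`, all integers `j ≠ 0` with `|j| ≤ k ^ U`, all
primes `l` and all `m` with `l ^ m ≤ k ^ U`, all groups `H` which are products of `r` cyclic groups of orders `l ^ e i`
with `e i ≤ m`, and all `Y ≥ 1`.

Let `K_n = ℚ(√(j n))` be quadratic fields with discriminant of absolute value at most `Y`, for the integers `n` in a set `S`
of integers of absolute value at most `b ^ (V k)`. If `v` is random with the distribution `p` then the expectation of the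
number of the surjective homomorphisms from the `l`-part of the class group of `K_n`, `n = c + κ v`, onto `H` (with `0` if
`n` is not in `S`) is at most `(k ^ B Y ^ (1 / 2) max (Y ^ (-1 / (2 l ^ m)), b ^ (- δ k))) ^ r`. -/
theorem result (b L : ℕ) (hb : 2 ≤ b) (hL : 1 ≤ L) (η : ℝ) (hη0 : 0 < η) (hη1 : η ≤ 1) (T r : ℕ) (hr : 1 ≤ r) :
    ∃ δ : ℝ, 0 < δ ∧ ∀ κ : ℤ, κ ≠ 0 → ∀ U V : ℕ, ∃ B k₀ : ℕ, ∀ k : ℕ, k₀ ≤ k → ∀ p : ℕ → ℝ, Exchangeable b L η T k p →
    ∀ c j : ℤ, j ≠ 0 → |j| ≤ (k : ℤ) ^ U → ∀ (l m : ℕ) (e : Fin r → ℕ), l.Prime → l ^ m ≤ k ^ U → (∀ i, e i ≤ m) →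
    ∀ Y : ℝ, 1 ≤ Y →
    ∀ (S : Set ℤ) (K : ℤ → Type) [∀ n, Field (K n)] [∀ n, NumberField (K n)],
    (∀ n ∈ S, |n| ≤ (b : ℤ) ^ (V * k) ∧ Module.finrank ℚ (K n) = 2 ∧ |(discr (K n) : ℝ)| ≤ Y ∧
      ∃ α : K n, IntermediateField.adjoin ℚ {α} = ⊤ ∧ α ^ 2 = ((j * n : ℤ) : K n)) →
    ∑ v ∈ range (b ^ k), p v * (if c + κ * v ∈ S then (numSur (K (c + κ * v)) l e : ℝ) else 0) ≤
      ((k : ℝ) ^ B * (√Y * max (Y ^ (-(1 / (2 * (l : ℝ) ^ m)))) ((b : ℝ) ^ (-(δ * k))))) ^ r := by
  obtain ⟨A, γ, hγ0, hγ1, hdom⟩ := Pool.Agent.N794.CG.flex_dom b L hb hL η hη0 hη1 T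
  obtain ⟨W, hW, H⟩ := Pool.Agent.N794.CG.sur_gen b hb A γ hγ0 hγ1 r hr
  have hWr : (0 : ℝ) < W := by exact_mod_cast hW
  refine ⟨1 / W, by positivity, fun κ hκ U V => ?_⟩
  obtain ⟨B, k₀, J⟩ := H (b.factorial * (b ^ L).factorial) κ
    (Nat.mul_pos (Nat.factorial_pos _) (Nat.factorial_pos _)) hκ U V
  refine ⟨T + B, k₀ + 1, fun k hk p hp c j hj0 hj l m e hl1 hlT he Y hY S K _ _ hS => ?_⟩
  have hk1 : (1 : ℝ) ≤ k := by exact_mod_cast (by omega : 1 ≤ k)
  have h1 := J k (by omega) j hj0 hj l m e hl1 hlT he Y hY S K hS ((k : ℝ) ^ T) ℕ (range (b ^ k)) p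
    (fun v => c + κ * (v : ℕ)) (one_le_pow₀ hk1) (fun i _ => hp.nonneg i) hp.sum.le
    (hdom k (by omega) p (flex_of hp) κ c)
  refine h1.trans ?_
  have e1 : (b : ℝ) ^ (-((k : ℝ) / W)) = (b : ℝ) ^ (-(1 / (W : ℝ) * k)) := by
    congr 1
    ring
  rw [e1]
  have hM : 0 ≤ √Y * max (Y ^ (-(1 / (2 * (l : ℝ) ^ m)))) ((b : ℝ) ^ (-(1 / (W : ℝ) * k))) := by positivity
  have h2 : (k : ℝ) ^ T ≤ ((k : ℝ) ^ T) ^ r := le_self_pow₀ (one_le_pow₀ hk1) (by omega)
  calc (k : ℝ) ^ T * ((k : ℝ) ^ B * (√Y * max (Y ^ (-(1 / (2 * (l : ℝ) ^ m)))) ((b : ℝ) ^ (-(1 / (W : ℝ) * k))))) ^ r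
      ≤ ((k : ℝ) ^ T) ^ r * ((k : ℝ) ^ B * (√Y * max (Y ^ (-(1 / (2 * (l : ℝ) ^ m)))) ((b : ℝ) ^ (-(1 / (W : ℝ) * k))))) ^ r :=
        mul_le_mul_of_nonneg_right h2 (by positivity)
    _ = _ := by
        rw [← mul_pow, ← mul_assoc, ← pow_add]

end Pool.Agent.Results.MP_0f260b_nt.ExchangeableMoments
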