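import Pool.Agent.N794.CG.Sv
import Pool.Agent.N794.CG.Quad
import Pool.Agent.N193.PS.Gp

/-!
# The `H`-moments of the class groups of the quadratic fields `ℚ(√(j v))` over the values `v` of functions of non-integral index

From Mathlib: `ContDiffAt ℝ ⊤`: infinitely differentiable at a point; `iteratedDeriv m f`: the derivative of order `m`;
`⌊y⌋₊`: the integer part of `y`, and `0` for `y < 0`; `𝓞 K`, `ClassGroup`, `NumberField.discr`: the ring of integers, the
class group and the discriminant; `CommGroup.primaryComponent G p`: the elements of `p`-power order.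

Method: the characteristic function of the integer part of `f n` is small at all frequencies whose digits are not close to
the digits of an integer (helper193, `Pool.Agent.N193.PS`), so that for almost all `n` many small primes split in
`ℚ(√(j v))`, with a high power saving in the proportion of the exceptions at each scale (starting library,
`Pool.Agent.H491R4.HM` and `Pool.Agent.R459.Tor`, where digit families are treated); then the argument of Ellenberg and
Venkatesh, and a count of surjections (starting library, `Pool.Agent.R345.HM`).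
-/

set_option autoImplicit false

namespace Pool.Agent.Results.MP_0f260b_nt.NonIntegralOrderMoments

open Finset NumberField Filter

/-- `f` is smoothly varying of index `c`: it is infinitely differentiable and positive for large arguments, and
`t ^ m f⁽ᵐ⁾(t) / f(t) → c (c - 1) ... (c - m + 1)` for every `m`. -/
def SmoothlyVarying (c : ℝ) (f : ℝ → ℝ) : Prop :=
  (∃ t₀ : ℝ, ∀ t > t₀, ContDiffAt ℝ ((⊤ : ℕ∞) : WithTop ℕ∞) f t ∧ 0 < f t) ∧
  ∀ m : ℕ, Tendsto (fun t => t ^ m * iteratedDeriv m f t / f t) atTop (nhds (∏ i ∈ range m, (c - i)))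

/-- `#Sur(Cl(K)[p^∞], H)` for the group `H`, the product of the cyclic groups of orders `p ^ e i`. -/
noncomputable def numSur (K : Type) [Field K] [NumberField K] (p : ℕ) {r : ℕ} (e : Fin r → ℕ) : ℕ :=
  Nat.card {φ : CommGroup.primaryComponent (ClassGroup (𝓞 K)) p →* (∀ i : Fin r, Multiplicative (ZMod (p ^ e i))) //
    Function.Surjective φ}

open Classical in
/-- **(1)** Let `f` be smoothly varying of an index `c > 0` which is not an integer, and let `r ≥ 1`. There is `δ > 0` such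
that for `κ ≠ 0` and `T`, `V` there are `B`, `X₀` such that the following holds for all `M` with `N := f M ≥ X₀`, all `c₀`,
all integers `j ≠ 0` with `|j| ≤ (log N) ^ T`, all primes `p`, all `m` with `p ^ m ≤ (log N) ^ T`, all groups `H` which are
products of `r` cyclic groups of orders `p ^ e i` with `e i ≤ m`, and all `Y ≥ 1`.

Let `K_v = ℚ(√(j v))` be quadratic fields with discriminant of absolute value at most `Y`, for the integers `v` in a set
`S` of integers of absolute value at most `N ^ V`. Then the mean value over `n ≤ M`, with `v = c₀ + κ ⌊f n⌋`, of the number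
of the surjective homomorphisms from the `p`-part of the class group of `K_v` onto `H` (with `0` if `v` is not in `S`) is at
most `((log N) ^ B Y ^ (1 / 2) max (Y ^ (-1 / (2 p ^ m)), N ^ (- δ))) ^ r`. (The `M` members are as few as `N ^ (1 / c)` up to
`N`, and `c` is arbitrarily large; `Y ^ (r / 2)` is the trivial bound up to powers of the logarithm.)

**(2)** Part (1) applies to all the functions `f t = ∑ a z t ^ z.1 (log t) ^ z.2` (finite sums) with a leading term `z₀`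
whose coefficient is positive and whose exponent `c = z₀.1` is positive and not an integer; for example to `n ^ c`. -/
theorem result :
    (∀ (c : ℝ) (f : ℝ → ℝ), 0 < c → (∀ m : ℕ, c ≠ m) → SmoothlyVarying c f → ∀ r : ℕ, 1 ≤ r → ∃ δ : ℝ, 0 < δ ∧
      ∀ κ : ℤ, κ ≠ 0 → ∀ T V : ℕ, ∃ B X₀ : ℕ, ∀ M : ℕ, (X₀ : ℝ) ≤ f M → ∀ c₀ j : ℤ, j ≠ 0 →
      |(j : ℝ)| ≤ Real.log (f M) ^ T → ∀ (p m : ℕ) (e : Fin r → ℕ), p.Prime → (p : ℝ) ^ m ≤ Real.log (f M) ^ T →
      (∀ i, e i ≤ m) → ∀ Y : ℝ, 1 ≤ Y → ∀ (S : Set ℤ) (K : ℤ → Type) [∀ v, Field (K v)] [∀ v, NumberField (K v)],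
      (∀ v ∈ S, |(v : ℝ)| ≤ f M ^ V ∧ Module.finrank ℚ (K v) = 2 ∧ |(discr (K v) : ℝ)| ≤ Y ∧
        ∃ α : K v, IntermediateField.adjoin ℚ {α} = ⊤ ∧ α ^ 2 = ((j * v : ℤ) : K v)) →
      1 / (M : ℝ) * ∑ n ∈ Icc 1 M, (if c₀ + κ * (⌊f n⌋₊ : ℕ) ∈ S then (numSur (K (c₀ + κ * (⌊f n⌋₊ : ℕ))) p e : ℝ) else 0) ≤
        (Real.log (f M) ^ B * (√Y * max (Y ^ (-(1 / (2 * (p : ℝ) ^ m)))) (f M ^ (-δ)))) ^ r) ∧
    (∀ (F : Finset (ℝ × ℝ)) (a : ℝ × ℝ → ℝ) (z₀ : ℝ × ℝ), z₀ ∈ F → 0 < a z₀ →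
      (∀ z ∈ F, z ≠ z₀ → z.1 < z₀.1 ∨ z.1 = z₀.1 ∧ z.2 < z₀.2) →
      SmoothlyVarying z₀.1 (fun t => ∑ z ∈ F, a z * t ^ z.1 * Real.log t ^ z.2)) := by
  refine ⟨fun c f hc hn hf r hr => ?_, fun F a z₀ h1 h2 h3 => Pool.Agent.N193.PS.gp_sv F a z₀ h1 h2 h3⟩
  obtain ⟨A, X₁, hdec⟩ := Pool.Agent.N794.CG.sv_dom c f hc hn hf
  obtain ⟨W, hW, H⟩ := Pool.Agent.N794.CG.sur_gen 2 le_rfl A (1 / 2) (by norm_num) (by norm_num) r hr
  have hWr : (0 : ℝ) < W := by exact_mod_cast hW
  refine ⟨1 / W, by positivity, fun κ hκ T V => ?_⟩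
  obtain ⟨B, k₀, J⟩ := H 1 κ le_rfl hκ T (2 * V)
  refine ⟨2 * B + 2, X₁ + 2 ^ (k₀ + 4), fun M hM c₀ j hj0 hj p m e hp hℓT he Y hY S K _ _ hS => ?_⟩
  have hM' : (X₁ : ℝ) + 2 ^ (k₀ + 4) ≤ f M := by exact_mod_cast hM
  have hX₁0 : (0 : ℝ) ≤ X₁ := Nat.cast_nonneg _
  have hpow : (0 : ℝ) < 2 ^ (k₀ + 4) := by positivity
  have hone : (1 : ℝ) ≤ 2 ^ (k₀ + 4) := one_le_pow₀ (by norm_num)
  obtain ⟨hM1, hdec⟩ := hdec M (by linarith)
  obtain ⟨k, hk⟩ : ∃ k, k = Nat.log 2 ⌊f M⌋₊ := ⟨_, rfl⟩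
  have hsc : Pool.Agent.N794.CG.Scale k (f M) := by
    rw [hk]
    exact Pool.Agent.N794.CG.scale_of (f M) (by linarith)
  have hkk : k₀ + 4 ≤ k := by
    have h1 : (2 : ℝ) ^ (k₀ + 4) < 2 ^ (k + 1) := lt_of_le_of_lt (by linarith) hsc.high
    have h2 : k₀ + 4 < k + 1 := (pow_lt_pow_iff_right₀ (by norm_num)).1 h1
    omega
  have hM1' : (0 : ℝ) < M := by exact_mod_cast hM1
  have h1 := J k (by omega) j hj0 (hsc.int_le (by omega) T j hj) p m e hp
    (hsc.nat_le (by omega) T (p ^ m) (by push_cast; exact hℓT)) he Y hY S K (fun v hv => by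
      obtain ⟨h1, h2, h3, h4⟩ := hS v hv
      exact ⟨hsc.size_le (by omega) V v h1, h2, h3, h4⟩) 1 ℕ (Icc 1 M) (fun _ => 1 / (M : ℝ))
    (fun n => c₀ + κ * (⌊f n⌋₊ : ℕ)) le_rfl (fun _ _ => by positivity) (by
      rw [sum_const, Nat.card_Icc, nsmul_eq_mul, Nat.add_sub_cancel, mul_one_div, div_self hM1'.ne'])
    (Pool.Agent.N794.CG.dom_of_decays (hdec κ c₀ k hsc.low))
  rw [one_mul, ← mul_sum] at h1
  exact h1.trans (hsc.bound (by omega) B W r hW Y (1 / (2 * (p : ℝ) ^ m)) hY)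

end Pool.Agent.Results.MP_0f260b_nt.NonIntegralOrderMoments
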