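import Pool.Agent.N794.CG.Sv
import Pool.Agent.N794.CG.Quad
import Pool.Agent.N384.MQ.Dec
import Pool.Agent.N384.MQ.Gen

/-!
# The `H`-moments of the class groups of quadratic fields over families of residues with small Fourier coefficients

From Mathlib: `ZMod.stdAddChar`: the additive character `j ↦ exp (2 π i j / q)` of the integers modulo `q`; `ZMod.val`: the
least residue; `𝓞 K`, `ClassGroup`, `NumberField.discr`: the ring of integers, the class group and the discriminant;
`CommGroup.primaryComponent G p`: the elements of `p`-power order.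

Method: a family of residues modulo `q` with small Fourier coefficients has small exponential sums at all real
frequencies which are not close to integers (helper384, `Pool.Agent.N384.MQ`; the examples are from there), so that
for almost all members `v` many small primes split in `ℚ(√(j v))`, with a high power saving in the proportion of the
exceptions at each scale (starting library, `Pool.Agent.H491R4.HM` and `Pool.Agent.R459.Tor`, where digit families are
treated); then the argument of Ellenberg and Venkatesh, and a count of surjections (starting library,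
`Pool.Agent.R345.HM`).
-/

set_option autoImplicit false

namespace Pool.Agent.Results.MP_0f260b_nt.ResidueMoments

open Finset NumberField Filter

/-- The Fourier coefficients of the residues `y i`, `i ∈ s`, modulo `q` at the nonzero frequencies are at most
`η` times the number of the residues: `|∑ i ∈ s, e(h y_i / q)| ≤ η |s|` for all `h ≠ 0` modulo `q`. -/
def Flat {ι : Type} (q : ℕ) [NeZero q] (η : ℝ) (s : Finset ι) (y : ι → ZMod q) : Prop :=
  ∀ h : ZMod q, h ≠ 0 → ‖∑ i ∈ s, (ZMod.stdAddChar (h * y i) : ℂ)‖ ≤ η * s.card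

/-- `#Sur(Cl(K)[p^∞], H)` for the group `H`, the product of the cyclic groups of orders `p ^ e i`. -/
noncomputable def numSur (K : Type) [Field K] [NumberField K] (p : ℕ) {r : ℕ} (e : Fin r → ℕ) : ℕ :=
  Nat.card {φ : CommGroup.primaryComponent (ClassGroup (𝓞 K)) p →* (∀ i : Fin r, Multiplicative (ZMod (p ^ e i))) //
    Function.Surjective φ}

open Classical in
/-- **(1)** Let `r ≥ 1`. There is `δ > 0` such that for `κ ≠ 0` and `T`, `V` there are `B`, `Z₀` such that the following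
holds. Let `y i`, `i ∈ s`, be any nonempty finite family of residues modulo any `q` whose Fourier coefficients at the
nonzero frequencies are at most `|s| / (Z (42 + 3 log q))`, where `Z₀ ≤ Z ≤ q`; let `c₀` and `j ≠ 0` be integers with
`|j| ≤ (log Z) ^ T`, let `p` be a prime with `p ^ m ≤ (log Z) ^ T`, let `H` be a product of `r` cyclic groups of orders
`p ^ e i` with `e i ≤ m`, and let `Y ≥ 1`.

Let `K_v = ℚ(√(j v))` be quadratic fields with discriminant of absolute value at most `Y`, for the integers `v` in a set `S`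
of integers of absolute value at most `Z ^ V`. Then the mean value over `i ∈ s`, with `v = c₀ + κ y_i` (with the least
residue `0 ≤ y_i < q`), of the number of the surjective homomorphisms from the `p`-part of the class group of `K_v` onto
`H` (with `0` if `v` is not in `S`) is at most
`((log Z) ^ B Y ^ (1 / 2) max (Y ^ (-1 / (2 p ^ m)), Z ^ (- δ))) ^ r`.

**(2)**, **(3)** Examples. All the Fourier coefficients at nonzero frequencies are at most `|s| / K` for the following families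
of residues modulo primes `p` (all large primes in (2)), for ALL `K ≥ 1`:
* the quotients `j / r` of the integers `0 ≤ j < S` by the primes `r ≤ R`, if `K log ^ 4 p ≤ R < p` and `R ^ 2 ≤ S`;
* the cosets of all subgroups of the multiplicative group of an order of at least `5 p ^ (3/8) K ^ 3`;
* the residues `a b + g(a) + k(b)`, `a ∈ A`, `b ∈ B`, for arbitrary sets with `|A| |B| ≥ p K ^ 2` and arbitrary
  functions `g` and `k`;
* the values `f(n)`, `0 ≤ n < x`, of all integer polynomials of degree `d` whose leading coefficient is not divisible by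
  `p`, if `p ≥ C K ^ C` and `x ^ d ≥ C K ^ C p`, where `C` depends on `d`.
In all these examples `K`, and thus `Z`, can be a power of `p` (then the members `v` and the discriminants are at most
powers of `Z`). -/
theorem result :
    (∀ r : ℕ, 1 ≤ r → ∃ δ : ℝ, 0 < δ ∧ ∀ κ : ℤ, κ ≠ 0 → ∀ T V : ℕ, ∃ B Z₀ : ℕ,
      ∀ (ι : Type) (q : ℕ) [NeZero q] (s : Finset ι) (y : ι → ZMod q) (Z : ℝ), s.Nonempty → (Z₀ : ℝ) ≤ Z → Z ≤ q →
      Flat q (1 / (Z * (42 + 3 * Real.log q))) s y → ∀ c₀ j : ℤ, j ≠ 0 → |(j : ℝ)| ≤ Real.log Z ^ T →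
      ∀ (p m : ℕ) (e : Fin r → ℕ), p.Prime → (p : ℝ) ^ m ≤ Real.log Z ^ T → (∀ i, e i ≤ m) → ∀ Y : ℝ, 1 ≤ Y →
      ∀ (S : Set ℤ) (K : ℤ → Type) [∀ v, Field (K v)] [∀ v, NumberField (K v)],
      (∀ v ∈ S, |(v : ℝ)| ≤ Z ^ V ∧ Module.finrank ℚ (K v) = 2 ∧ |(discr (K v) : ℝ)| ≤ Y ∧
        ∃ α : K v, IntermediateField.adjoin ℚ {α} = ⊤ ∧ α ^ 2 = ((j * v : ℤ) : K v)) →
      1 / (s.card : ℝ) * ∑ i ∈ s,
        (if c₀ + κ * ((y i).val : ℕ) ∈ S then (numSur (K (c₀ + κ * ((y i).val : ℕ))) p e : ℝ) else 0) ≤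
        (Real.log Z ^ B * (√Y * max (Y ^ (-(1 / (2 * (p : ℝ) ^ m)))) (Z ^ (-δ)))) ^ r) ∧
    (∃ P₀ : ℕ, ∀ p : ℕ, P₀ ≤ p → ∀ [Fact p.Prime] (K : ℝ), 1 ≤ K →
      (∀ R S : ℕ, K * Real.log p ^ 4 ≤ R → R < p → R ^ 2 ≤ S →
        Flat p (1 / K) (((Icc 1 R).filter Nat.Prime) ×ˢ range S)
          (fun z => ((z.2 : ℕ) : ZMod p) * ((z.1 : ℕ) : ZMod p)⁻¹)) ∧
      (∀ (H : Subgroup (ZMod p)ˣ) (s : Finset (ZMod p)ˣ), (∀ u, u ∈ s ↔ u ∈ H) →
        5 * (p : ℝ) ^ (3 / 8 : ℝ) * K ^ 3 ≤ s.card → ∀ x : ZMod p, x ≠ 0 → Flat p (1 / K) s (fun u => x * (u : ZMod p))) ∧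
      (∀ (A B : Finset (ZMod p)) (g k : ZMod p → ZMod p), (p : ℝ) * K ^ 2 ≤ A.card * B.card →
        Flat p (1 / K) (A ×ˢ B) (fun z => z.1 * z.2 + g z.1 + k z.2))) ∧
    (∀ d : ℕ, 1 ≤ d → ∃ C : ℕ, ∀ p : ℕ, ∀ [Fact p.Prime] (f : Polynomial ℤ), f.natDegree = d →
      ¬ (p : ℤ) ∣ f.leadingCoeff → ∀ K : ℝ, 1 ≤ K → C * K ^ C ≤ p → ∀ x : ℕ, C * K ^ C * p ≤ (x : ℝ) ^ d →
      Flat p (1 / K) (range x) (fun n => ((f.eval (n : ℤ) : ℤ) : ZMod p))) := by
  refine ⟨fun r hr => ?_, ?_, fun d hd => ?_⟩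
  · obtain ⟨W, hW, H⟩ := Pool.Agent.N794.CG.sur_gen 2 le_rfl 5 (1 / 2) (by norm_num) (by norm_num) r hr
    have hWr : (0 : ℝ) < W := by exact_mod_cast hW
    refine ⟨1 / W, by positivity, fun κ hκ T V => ?_⟩
    obtain ⟨B, k₀, J⟩ := H 1 κ le_rfl hκ T (2 * V)
    refine ⟨2 * B + 2, 2 ^ (k₀ + 4), fun ι q _ s y Z hs hZ hZq hfl c₀ j hj0 hj p m e hp hℓT he Y hY S K _ _ hS => ?_⟩
    have hM' : (2 : ℝ) ^ (k₀ + 4) ≤ Z := by exact_mod_cast hZ
    have hone : (1 : ℝ) ≤ 2 ^ (k₀ + 4) := one_le_pow₀ (by norm_num)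
    have hZ1 : 1 ≤ Z := by linarith
    obtain ⟨k, hk⟩ : ∃ k, k = Nat.log 2 ⌊Z⌋₊ := ⟨_, rfl⟩
    have hsc : Pool.Agent.N794.CG.Scale k Z := by
      rw [hk]
      exact Pool.Agent.N794.CG.scale_of Z hZ1
    have hkk : k₀ + 4 ≤ k := by
      have h1 : (2 : ℝ) ^ (k₀ + 4) < 2 ^ (k + 1) := lt_of_le_of_lt hM' hsc.high
      have h2 : k₀ + 4 < k + 1 := (pow_lt_pow_iff_right₀ (by norm_num)).1 h1
      omega
    have hq0 : 0 ≤ Real.log q := Real.log_natCast_nonneg q
    have hs0 : (0 : ℝ) < s.card := by exact_mod_cast hs.card_pos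
    have hdec := Pool.Agent.N384.MQ.decays_fam s hs y (Z * (42 + 3 * Real.log q)) Z (by positivity) hfl hZq le_rfl k
      hsc.low c₀ κ
    have h1 := J k (by omega) j hj0 (hsc.int_le (by omega) T j hj) p m e hp
      (hsc.nat_le (by omega) T (p ^ m) (by push_cast; exact hℓT)) he Y hY S K (fun v hv => by
        obtain ⟨h1, h2, h3, h4⟩ := hS v hv
        exact ⟨hsc.size_le (by omega) V v h1, h2, h3, h4⟩) 1 ι s (fun _ => 1 / (s.card : ℝ))
      (fun i => c₀ + κ * ((y i).val : ℕ)) le_rfl (fun _ _ => by positivity) (by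
        rw [sum_const, nsmul_eq_mul, mul_one_div, div_self hs0.ne'])
      (Pool.Agent.N794.CG.dom_of_decays hdec)
    rw [one_mul, ← mul_sum] at h1
    exact h1.trans (hsc.bound (by omega) B W r hW Y (1 / (2 * (p : ℝ) ^ m)) hY)
  · obtain ⟨P₀, h0⟩ := Pool.Agent.N384.MQ.flatK_quot
    exact ⟨P₀, fun p hp _ K hK => ⟨fun R S => h0 p hp K hK R S,
      fun H s hs hc x hx => Pool.Agent.N384.MQ.flatK_coset p H s hs K hK hc x hx,
      fun A B g k hAB => Pool.Agent.N384.MQ.flatK_prod p A B g k K hK hAB⟩⟩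
  · exact Pool.Agent.N384.MQ.flatK_poly d hd

end Pool.Agent.Results.MP_0f260b_nt.ResidueMoments
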